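import Pool.Agent.Lib_helper28.REAL.R

/-!
# The coefficients of a normalised Hecke eigenform of level one are real
-/

namespace Pool.Agent.RealCoeff

open UpperHalfPlane MeasureTheory ModularGroup Modular MatrixGroups Filter Topology
open scoped ModularForm ComplexConjugate

variable {k : ℕ} (f : CuspForm 𝒮ℒ (k : ℤ))

theorem coeff_zero_cusp : (qExpansion 1 f).coeff 0 = 0 := by
  have := CuspFormClass.cuspFunction_apply_zero (f := f) (h := 1) one_pos one_mem_strictPeriods_SL
  simp [qExpansion_coeff, this]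

theorem f_ne (hone : (qExpansion 1 f).coeff 1 = 1) : ∃ z, f z ≠ 0 := by
  by_contra hcon
  push Not at hcon
  have h0 : (⇑f) = 0 := funext hcon
  have h1 : (qExpansion 1 f).coeff 1 = 0 := by
    rw [h0]
    simp [qExpansion_zero]
  rw [h1] at hone
  exact zero_ne_one hone

/-- the Hecke relation for `T_p` from multiplicativity and the recursion at prime powers -/
theorem rel_of_mul {b : ℕ → ℂ} (h0 : b 0 = 0)
    (hmul : ∀ m n : ℕ, m.Coprime n → b (m * n) = b m * b n)
    {p : ℕ} (hp : p.Prime)
    (hrec : ∀ r : ℕ, b (p ^ (r + 2)) = b p * b (p ^ (r + 1)) - (p : ℂ) ^ (k - 1) * b (p ^ r))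
    (n : ℕ) : b (p * n) + (if p ∣ n then (p : ℂ) ^ (k - 1) * b (n / p) else 0) = b p * b n := by
  rcases Nat.eq_zero_or_pos n with rfl | hn
  · simp [h0]
  obtain ⟨r, m, hm, rfl⟩ := Nat.exists_eq_pow_mul_and_not_dvd hn.ne' p hp.ne_one
  have hc : ∀ s : ℕ, (p ^ s).Coprime m := fun s =>
    Nat.Coprime.pow_left s ((Nat.Prime.coprime_iff_not_dvd hp).mpr hm)
  rcases r with _ | r
  · rw [pow_zero, one_mul, if_neg hm, add_zero]
    exact hmul p m ((Nat.Prime.coprime_iff_not_dvd hp).mpr hm)
  · have h1 : p * (p ^ (r + 1) * m) = p ^ (r + 2) * m := by ring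
    have h2 : p ^ (r + 1) * m = p * (p ^ r * m) := by ring
    have h3 : p ^ (r + 1) * m / p = p ^ r * m := by
      rw [h2, Nat.mul_div_cancel_left _ hp.pos]
    rw [if_pos (by rw [h2]; exact Dvd.intro _ rfl), h3, h1, hmul _ _ (hc _), hmul _ _ (hc _),
      hmul _ _ (hc _), hrec r]
    ring

/-- The coefficients of a normalised Hecke eigenform of level one are real. -/
theorem coeff_real (hk : 0 < k) (hone : (qExpansion 1 f).coeff 1 = 1)
    (hmul : ∀ m n : ℕ, m.Coprime n → (qExpansion 1 f).coeff (m * n) =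
      (qExpansion 1 f).coeff m * (qExpansion 1 f).coeff n)
    (hhecke : ∀ p r : ℕ, p.Prime → (qExpansion 1 f).coeff (p ^ (r + 2)) =
      (qExpansion 1 f).coeff p * (qExpansion 1 f).coeff (p ^ (r + 1)) -
        (p : ℂ) ^ (k - 1) * (qExpansion 1 f).coeff (p ^ r)) (n : ℕ) :
    ((qExpansion 1 f).coeff n).im = 0 := by
  rw [← Complex.conj_eq_iff_im]
  have hne := f_ne f hone
  have hprime : ∀ p : ℕ, p.Prime → conj ((qExpansion 1 f).coeff p) = (qExpansion 1 f).coeff p := by
    intro p hp
    exact eigenvalue_real f hp hk hne _ (fun n => rel_of_mul (k := k)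
      (b := fun n => (qExpansion 1 f).coeff n) (coeff_zero_cusp f) hmul hp
      (fun r => hhecke p r hp) n)
  have hpow : ∀ p : ℕ, p.Prime → ∀ r : ℕ,
      conj ((qExpansion 1 f).coeff (p ^ r)) = (qExpansion 1 f).coeff (p ^ r) := by
    intro p hp r
    induction r using Nat.strong_induction_on with
    | _ r ih =>
      rcases r with _ | _ | r
      · simp [hone]
      · simpa using hprime p hp
      · rw [hhecke p r hp, map_sub, map_mul, map_mul, hprime p hp, ih (r + 1) (by omega),
          ih r (by omega), map_pow, Complex.conj_natCast]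
  induction n using Nat.recOnPosPrimePosCoprime with
  | prime_pow p n hp hn => exact hpow p hp n
  | zero => simp [coeff_zero_cusp]
  | one => simp [hone]
  | coprime a b ha hb hab iha ihb => rw [hmul a b hab, map_mul, iha, ihb]

end Pool.Agent.RealCoeff
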