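import Pool.Agent.Lib_helper28.REAL.T

/-!
# The coefficients of a normalised Hecke eigenform of level one are real
-/

namespace Pool.Agent.RealCoeff

open UpperHalfPlane MeasureTheory ModularGroup Modular MatrixGroups Filter Topology
open scoped ModularForm ComplexConjugate

variable {k : ℕ} (f : CuspForm 𝒮ℒ (k : ℤ))

theorem pet_inv (γ : SL(2, ℤ)) (z : ℍ) :
    petersson (k : ℤ) f f (γ • z) = petersson (k : ℤ) f f z := by
  have h := SlashInvariantFormClass.petersson_smul (k := (k : ℤ)) (Γ := 𝒮ℒ) (f := f) (f' := f)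
    (g := Matrix.SpecialLinearGroup.mapGL ℝ γ) (τ := z) ⟨γ, rfl⟩
  exact h

theorem f_slash (γ : SL(2, ℤ)) : (⇑f) ∣[(k : ℤ)] γ = ⇑f :=
  SlashInvariantFormClass.slash_action_eq f _ ⟨γ, rfl⟩

theorem f_cont : Continuous (⇑f) := (CuspFormClass.holo f).continuous

theorem pet_self (z : ℍ) : petersson (k : ℤ) f f z = ((‖f z‖ ^ 2 * z.im ^ k : ℝ) : ℂ) := by
  unfold petersson
  rw [← Complex.normSq_eq_conj_mul_self, Complex.normSq_eq_norm_sq]
  push_cast
  rw [zpow_natCast]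

theorem pet_bdd : ∃ C, ∀ z, ‖petersson (k : ℤ) f f z‖ ≤ C :=
  CuspFormClass.petersson_bounded_left (k : ℤ) 𝒮ℒ f f

theorem J_pos (hf : ∃ z, f z ≠ 0) : 0 < ∫ z : ℍ, P z * (‖f z‖ ^ 2 * z.im ^ k) := by
  obtain ⟨C, hC⟩ := pet_bdd f
  have hn : ∀ z : ℍ, ‖petersson (k : ℤ) f f z‖ = ‖f z‖ ^ 2 * z.im ^ k := by
    intro z
    rw [pet_self, Complex.norm_real, Real.norm_of_nonneg]
    have := z.im_pos
    positivity
  have hcont : Continuous fun z : ℍ => ‖f z‖ ^ 2 * z.im ^ k := by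
    have := f_cont f
    fun_prop
  have hint : Integrable fun z : ℍ => P z * (‖f z‖ ^ 2 * z.im ^ k) := by
    refine P_int.mul_bdd (c := C) hcont.aestronglyMeasurable (Eventually.of_forall fun z => ?_)
    rw [Real.norm_of_nonneg (by have := z.im_pos; positivity), ← hn]
    exact hC z
  have h0 : 0 ≤ fun z : ℍ => P z * (‖f z‖ ^ 2 * z.im ^ k) := by
    intro z
    have := z.im_pos
    exact mul_nonneg (P_nonneg z) (by positivity)
  refine lt_of_le_of_ne (integral_nonneg h0) fun h => ?_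
  have h1 := (integral_eq_zero_iff_of_nonneg h0 hint).mp h.symm
  have h2 : ∀ γ : SL(2, ℤ), ∀ᵐ z : ℍ, P (γ • z) * (‖f z‖ ^ 2 * z.im ^ k) = 0 := by
    intro γ
    have h3 := (measurePreserving_smul (Matrix.SpecialLinearGroup.mapGL ℝ γ)
      (volume : Measure ℍ)).quasiMeasurePreserving.ae h1
    filter_upwards [h3] with z hz
    have h4 : ‖f (γ • z)‖ ^ 2 * (γ • z).im ^ k = ‖f z‖ ^ 2 * z.im ^ k := by
      rw [← hn, ← hn, pet_inv]
    have h5 : P (γ • z) * (‖f (γ • z)‖ ^ 2 * (γ • z).im ^ k) = 0 := hz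
    rwa [h4] at h5
  rw [← ae_all_iff] at h2
  have h6 : ∀ᵐ z : ℍ, ‖f z‖ ^ 2 * z.im ^ k = 0 := by
    filter_upwards [h2] with z hz
    have h7 := (P_hasSum z).mul_right (‖f z‖ ^ 2 * z.im ^ k)
    rw [one_mul] at h7
    simp_rw [hz] at h7
    exact h7.unique hasSum_zero
  have hopen : IsOpen {z : ℍ | ‖f z‖ ^ 2 * z.im ^ k ≠ 0} := by
    exact isOpen_ne_fun hcont continuous_const
  have hne : {z : ℍ | ‖f z‖ ^ 2 * z.im ^ k ≠ 0}.Nonempty := by
    obtain ⟨z, hz⟩ := hf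
    refine ⟨z, ?_⟩
    have h8 := z.im_pos
    have h9 : 0 < ‖f z‖ := norm_pos_iff.mpr hz
    have : 0 < ‖f z‖ ^ 2 * z.im ^ k := by positivity
    exact this.ne'
  exact vol_open_pos hopen hne h6

theorem eigenvalue_real {p : ℕ} (hpp : p.Prime) (hk : 0 < k) (hf : ∃ z, f z ≠ 0) (c : ℂ)
    (h : ∀ n : ℕ, (qExpansion 1 f).coeff (p * n) +
      (if p ∣ n then (p : ℂ) ^ (k - 1) * (qExpansion 1 f).coeff (n / p) else 0) =
      c * (qExpansion 1 f).coeff n) : conj c = c := by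
  have : Fact (0 < p) := ⟨hpp.pos⟩
  obtain ⟨C, hC⟩ := pet_bdd f
  have h1 := total_real (p := p) (k := (k : ℤ)) (f := ⇑f) hpp (f_slash f) (f_cont f) hC
  have h2 : ∑ r, ∫ z : ℍ, ((P z : ℝ) : ℂ) * Ph (k : ℤ) f (rep p r) z =
      c * ((∫ z : ℍ, P z * (‖f z‖ ^ 2 * z.im ^ k) : ℝ) : ℂ) := by
    rw [← integral_finsetSum]
    · rw [← integral_complex_ofReal, ← integral_const_mul]
      refine integral_congr_ae (Eventually.of_forall fun z => ?_)
      simp only
      rw [← Finset.mul_sum]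
      have h3 : ∑ r, Ph (k : ℤ) f (rep p r) z = c * petersson (k : ℤ) f f z := by
        unfold Ph petersson
        rw [← Finset.sum_mul, ← Finset.mul_sum, hecke_slash f hk c h z]
        ring
      rw [h3, pet_self]
      push_cast
      ring
    · intro r _
      obtain ⟨C', hC'⟩ := Ph_bdd hC (rep p r)
      exact (P_int.ofReal).mul_bdd (c := C') (Ph_cont (f_cont f) _).aestronglyMeasurable
        (Eventually.of_forall hC')
  rw [h2, map_mul, Complex.conj_ofReal] at h1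
  have h3 := J_pos f hf
  have h4 : ((∫ z : ℍ, P z * (‖f z‖ ^ 2 * z.im ^ k) : ℝ) : ℂ) ≠ 0 := by
    exact_mod_cast h3.ne'
  exact mul_right_cancel₀ h4 h1

end Pool.Agent.RealCoeff
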