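import Pool.Agent.Lib_helper28.REAL.I

/-!
# Representatives for integer matrices of determinant `p`
-/

namespace Pool.Agent.RealCoeff

open UpperHalfPlane MeasureTheory ModularGroup Modular MatrixGroups Filter Topology
open scoped ModularForm ComplexConjugate

/-- the representatives -/
def rep (p : ℕ) : Option (Fin p) → MM p
  | none => ⟨!![(p : ℤ), 0; 0, 1], by simp⟩
  | some b => ⟨!![1, (b : ℤ); 0, (p : ℤ)], by simp⟩

theorem rep_surj {p : ℕ} (hp : p.Prime) (A : MM p) :
    ∃ r : Option (Fin p), ∃ γ : SL(2, ℤ), γ • rep p r = A := by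
  have hm : (p : ℤ) ≠ 0 := by exact_mod_cast hp.ne_zero
  induction A using FixedDetMatrices.induction_on hm with
  | h0 A h10 h00 h01 h =>
    have hd : A.1 0 0 * A.1 1 1 = p := by
      have := A.2
      rw [Matrix.det_fin_two, h10, mul_zero, sub_zero] at this
      exact this
    have hdvd : (A.1 0 0).natAbs ∣ p := by
      have h1 : A.1 0 0 ∣ (p : ℤ) := ⟨_, hd.symm⟩
      simpa using Int.natAbs_dvd_natAbs.mpr h1
    rcases (Nat.dvd_prime hp).mp hdvd with h1 | h1
    · have h2 : A.1 0 0 = 1 := by omega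
      have h3 : A.1 1 1 = p := by rw [h2, one_mul] at hd; exact hd
      have h4 : A.1 0 1 < p := by
        rw [h3, abs_of_nonneg h01, abs_of_nonneg (by positivity)] at h
        exact h
      refine ⟨some ⟨(A.1 0 1).toNat, by omega⟩, 1, ?_⟩
      rw [one_smul]
      apply FixedDetMatrices.ext
      intro i j
      fin_cases i <;> fin_cases j
      · simp [rep, h2]
      · simp [rep, h01]
      · simp [rep, h10]
      · simp [rep, h3]
    · have h2 : A.1 0 0 = p := by omega
      have h3 : A.1 1 1 = 1 := by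
        rw [h2] at hd
        have : (p : ℤ) * (A.1 1 1) = p * 1 := by rw [hd, mul_one]
        exact mul_left_cancel₀ hm this
      have h4 : A.1 0 1 = 0 := by
        rw [h3, abs_of_nonneg h01, abs_one] at h
        omega
      refine ⟨none, 1, ?_⟩
      rw [one_smul]
      apply FixedDetMatrices.ext
      intro i j
      fin_cases i <;> fin_cases j
      · simp [rep, h2]
      · simp [rep, h4]
      · simp [rep, h10]
      · simp [rep, h3]
  | hS B ih =>
    obtain ⟨r, γ, rfl⟩ := ih
    exact ⟨r, S * γ, by rw [mul_smul]⟩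
  | hT B ih =>
    obtain ⟨r, γ, rfl⟩ := ih
    exact ⟨r, T * γ, by rw [mul_smul]⟩

theorem rep_inj_aux {p : ℕ} (hp : p.Prime) (r r' : Option (Fin p)) (g : SL(2, ℤ))
    (h : g • rep p r = rep p r') : r = r' ∧ g = 1 := by
  have hpz : (2 : ℤ) ≤ p := by exact_mod_cast hp.two_le
  have h1 := congrArg Subtype.val h
  rw [FixedDetMatrices.smul_coe] at h1
  have e00 := congrFun (congrFun h1 0) 0
  have e01 := congrFun (congrFun h1 0) 1
  have e10 := congrFun (congrFun h1 1) 0
  have e11 := congrFun (congrFun h1 1) 1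
  have hdet := g.2
  rw [Matrix.det_fin_two] at hdet
  have hpos : ∀ r : Option (Fin p), 0 < (rep p r).1 0 0 := by
    intro r
    rcases r with _ | x
    · simpa [rep] using (by omega : (0 : ℤ) < p)
    · simp [rep]
  have hz : ∀ r : Option (Fin p), (rep p r).1 1 0 = 0 := by
    intro r
    rcases r with _ | x <;> simp [rep]
  have m00 : (g.1 * (rep p r).1) 0 0 = g.1 0 0 * (rep p r).1 0 0 + g.1 0 1 * (rep p r).1 1 0 := by
    simp [Matrix.mul_apply]
  have m01 : (g.1 * (rep p r).1) 0 1 = g.1 0 0 * (rep p r).1 0 1 + g.1 0 1 * (rep p r).1 1 1 := by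
    simp [Matrix.mul_apply]
  have m10 : (g.1 * (rep p r).1) 1 0 = g.1 1 0 * (rep p r).1 0 0 + g.1 1 1 * (rep p r).1 1 0 := by
    simp [Matrix.mul_apply]
  rw [m00, hz, mul_zero, add_zero] at e00
  rw [m01] at e01
  rw [m10, hz, hz, mul_zero, add_zero] at e10
  have hc : g.1 1 0 = 0 := by
    rcases mul_eq_zero.mp e10 with h0 | h0
    · exact h0
    · exact absurd h0 (hpos r).ne'
  rw [hc, mul_zero, sub_zero] at hdet
  have ha : g.1 0 0 = 1 := by
    rcases Int.mul_eq_one_iff_eq_one_or_neg_one.mp hdet with ⟨h0, -⟩ | ⟨h0, -⟩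
    · exact h0
    · exfalso
      have h3 := hpos r
      have h4 := hpos r'
      rw [← e00, h0] at h4
      linarith
  have hd : g.1 1 1 = 1 := by rw [ha, one_mul] at hdet; exact hdet
  rw [ha, one_mul] at e00 e01
  have h2 : r = r' ∧ g.1 0 1 = 0 := by
    rcases r with _ | x <;> rcases r' with _ | y
    · simp [rep] at e01
      exact ⟨rfl, e01⟩
    · simp [rep] at e00
      omega
    · simp [rep] at e00
      omega
    · simp [rep] at e01
      have hx : (x : ℤ) < p := by exact_mod_cast x.2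
      have hy : (y : ℤ) < p := by exact_mod_cast y.2
      have hx0 : (0 : ℤ) ≤ (x : ℕ) := by positivity
      have hy0 : (0 : ℤ) ≤ (y : ℕ) := by positivity
      have hb : g.1 0 1 = 0 := by
        by_contra hne
        rcases lt_or_gt_of_ne hne with h0 | h0
        · have : g.1 0 1 * (p : ℤ) ≤ -1 * p := by
            apply mul_le_mul_of_nonneg_right _ (by omega); omega
          omega
        · have : 1 * (p : ℤ) ≤ g.1 0 1 * p := by
            apply mul_le_mul_of_nonneg_right _ (by omega); omega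
          omega
      rw [hb, zero_mul, add_zero] at e01
      refine ⟨?_, hb⟩
      congr 1
      apply Fin.ext
      exact_mod_cast e01
  obtain ⟨h2, hb⟩ := h2
  refine ⟨h2, ?_⟩
  ext i j
  fin_cases i <;> fin_cases j
  · simpa using ha
  · simpa using hb
  · simpa using hc
  · simpa using hd

/-- `SL(2, ℤ) × reps ≃ MM p` -/
theorem rep_bij {p : ℕ} (hp : p.Prime) :
    Function.Bijective (fun x : Option (Fin p) × SL(2, ℤ) => x.2 • rep p x.1) := by
  constructor
  · rintro ⟨r, γ⟩ ⟨r', γ'⟩ h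
    simp only at h
    have h1 : (γ'⁻¹ * γ) • rep p r = rep p r' := by
      rw [mul_smul, h, inv_smul_smul]
    obtain ⟨h2, h3⟩ := rep_inj_aux hp r r' _ h1
    have h4 : γ = γ' := by
      have := inv_mul_eq_one.mp h3
      exact this.symm
    rw [h2, h4]
  · intro A
    obtain ⟨r, γ, h⟩ := rep_surj hp A
    exact ⟨(r, γ), h⟩

theorem hasSum_prod_fin {R Γ : Type*} [Fintype R] [DecidableEq R] {F : R × Γ → ℂ} {s : R → ℂ}
    (h : ∀ r, HasSum (fun γ => F (r, γ)) (s r)) : HasSum F (∑ r, s r) := by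
  have h1 : ∀ r : R, HasSum (fun x : R × Γ => if x.1 = r then F x else 0) (s r) := by
    intro r
    have hi : Function.Injective (fun γ : Γ => (r, γ)) := fun a b hab => (Prod.mk.inj hab).2
    rw [← hi.hasSum_iff]
    · simpa [Function.comp_def] using h r
    · rintro ⟨r', γ⟩ hx
      simp only
      rw [if_neg]
      rintro rfl
      exact hx ⟨γ, rfl⟩
  have h2 := hasSum_sum (s := Finset.univ) fun r _ => h1 r
  have h3 : (fun x : R × Γ => ∑ r, if x.1 = r then F x else 0) = F := by
    funext x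
    simp
  rwa [h3] at h2

variable {p : ℕ} [hp : Fact (0 < p)] {k : ℤ} {f : ℍ → ℂ}

theorem II_total (hpp : p.Prime) (hf : ∀ γ : SL(2, ℤ), f ∣[k] γ = f) (hc : Continuous f) {C : ℝ}
    (hb : ∀ z, ‖petersson k f f z‖ ≤ C) :
    HasSum (II k f : MM p → ℂ) (∑ r, ∫ z : ℍ, ((P z : ℝ) : ℂ) * Ph k f (rep p r) z) := by
  have h1 := hasSum_prod_fin (F := fun x : Option (Fin p) × SL(2, ℤ) => II k f (x.2 • rep p x.1))
    (fun r => II_hasSum hf hc hb (rep p r))
  let e := Equiv.ofBijective _ (rep_bij hpp)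
  have h2 : (fun x : Option (Fin p) × SL(2, ℤ) => II k f (x.2 • rep p x.1)) = (II k f) ∘ e := rfl
  rw [h2] at h1
  exact (Equiv.hasSum_iff e).mp h1

theorem total_real (hpp : p.Prime) (hf : ∀ γ : SL(2, ℤ), f ∣[k] γ = f) (hc : Continuous f) {C : ℝ}
    (hb : ∀ z, ‖petersson k f f z‖ ≤ C) :
    conj (∑ r, ∫ z : ℍ, ((P z : ℝ) : ℂ) * Ph k f (rep p r) z) =
      ∑ r, ∫ z : ℍ, ((P z : ℝ) : ℂ) * Ph k f (rep p r) z := by
  have h1 := II_total hpp hf hc hb
  have h2 : HasSum (fun A : MM p => conj (II k f A))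
      (conj (∑ r, ∫ z : ℍ, ((P z : ℝ) : ℂ) * Ph k f (rep p r) z)) := by
    exact (h1.map (starRingEnd ℂ) Complex.continuous_conj)
  let e : MM p ≃ MM p := ⟨adjM, adjM, adjM_adjM, adjM_adjM⟩
  have h3 : (fun A : MM p => conj (II k f A)) = (II k f) ∘ e := by
    funext A
    exact (II_adj A).symm
  rw [h3] at h2
  exact ((Equiv.hasSum_iff e).mp h2).unique h1

end Pool.Agent.RealCoeff
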