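import Pool.Agent.Lib_helper28.REAL.V

/-!
# Petersson integrals against integer matrices of determinant `p`
-/

namespace Pool.Agent.RealCoeff

open UpperHalfPlane MeasureTheory ModularGroup Modular MatrixGroups Filter Topology
open scoped ModularForm ComplexConjugate

/-- integer matrices of determinant `p` -/
abbrev MM (p : ℕ) := FixedDetMatrix (Fin 2) ℤ (p : ℤ)

theorem det_map_ne {p : ℕ} (hp : 0 < p) (A : MM p) :
    (A.1.map (Int.cast : ℤ → ℝ)).det ≠ 0 := by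
  have h : (A.1.map (Int.cast : ℤ → ℝ)).det = ((A.1.det : ℤ) : ℝ) := by
    simp [Matrix.det_fin_two]
  rw [h, A.2]
  exact_mod_cast hp.ne'

/-- the image in `GL(2, ℝ)` -/
noncomputable def GG {p : ℕ} [hp : Fact (0 < p)] (A : MM p) : GL (Fin 2) ℝ :=
  Matrix.GeneralLinearGroup.mkOfDetNeZero (A.1.map (Int.cast : ℤ → ℝ)) (det_map_ne hp.1 A)

theorem GG_coe {p : ℕ} [Fact (0 < p)] (A : MM p) :
    ((GG A : GL (Fin 2) ℝ) : Matrix (Fin 2) (Fin 2) ℝ) = A.1.map (Int.cast : ℤ → ℝ) := rfl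

theorem GG_det {p : ℕ} [Fact (0 < p)] (A : MM p) :
    ((GG A : GL (Fin 2) ℝ).det : ℝ) = p := by
  rw [Matrix.GeneralLinearGroup.val_det_apply, GG_coe]
  have h : (A.1.map (Int.cast : ℤ → ℝ)).det = ((A.1.det : ℤ) : ℝ) := by
    simp [Matrix.det_fin_two]
  rw [h, A.2]; simp

theorem GG_smul {p : ℕ} [Fact (0 < p)] (γ : SL(2, ℤ)) (A : MM p) :
    GG (γ • A) = Matrix.SpecialLinearGroup.mapGL ℝ γ * GG A := by
  apply Units.ext
  rw [Units.val_mul, GG_coe, GG_coe, FixedDetMatrices.smul_coe]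
  ext i j
  simp [Matrix.mul_apply]

/-- the adjugate -/
def adjM {p : ℕ} (A : MM p) : MM p :=
  ⟨A.1.adjugate, by rw [Matrix.det_adjugate, A.2]; simp⟩

theorem adjM_adjM {p : ℕ} (A : MM p) : adjM (adjM A) = A := by
  apply FixedDetMatrices.ext'
  simp [adjM, Matrix.adjugate_adjugate]

/-- scalar matrix -/
noncomputable def scal (p : ℕ) [hp : Fact (0 < p)] : GL (Fin 2) ℝ :=
  Matrix.GeneralLinearGroup.scalar (Fin 2)
    (Units.mk0 (p : ℝ) (by exact_mod_cast hp.1.ne'))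

theorem GG_mul_adj {p : ℕ} [Fact (0 < p)] (A : MM p) : GG A * GG (adjM A) = scal p := by
  apply Units.ext
  rw [Units.val_mul, GG_coe, GG_coe]
  have h : A.1 * A.1.adjugate = A.1.det • (1 : Matrix (Fin 2) (Fin 2) ℤ) :=
    Matrix.mul_adjugate A.1
  have h2 := congrArg (fun M : Matrix (Fin 2) (Fin 2) ℤ => M.map (Int.castRingHom ℝ)) h
  simp only [Matrix.map_mul] at h2
  have h3 : (A.1.map (Int.cast : ℤ → ℝ)) = A.1.map (Int.castRingHom ℝ) := rfl
  have h4 : ((adjM A).1.map (Int.cast : ℤ → ℝ)) = A.1.adjugate.map (Int.castRingHom ℝ) := rfl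
  rw [h3, h4, h2, A.2]
  ext i j
  rw [Matrix.map_apply, Matrix.smul_apply, Matrix.one_apply]
  have h5 : ((scal p : GL (Fin 2) ℝ) : Matrix (Fin 2) (Fin 2) ℝ) i j =
    if i = j then (p : ℝ) else 0 := by
    have : ((scal p : GL (Fin 2) ℝ) : Matrix (Fin 2) (Fin 2) ℝ) =
      Matrix.diagonal (fun _ => (p : ℝ)) := rfl
    rw [this, Matrix.diagonal_apply]
  rw [h5]
  split_ifs <;> simp

theorem scal_smul (p : ℕ) [hp : Fact (0 < p)] (z : ℍ) : scal p • z = z :=
  glScalar_smul _ z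

theorem GG_adj_smul {p : ℕ} [Fact (0 < p)] (A : MM p) (z : ℍ) :
    GG A • GG (adjM A) • z = z := by
  rw [← mul_smul, GG_mul_adj, scal_smul]

theorem sigma_pos {g : GL (Fin 2) ℝ} (hg : 0 < (g.det : ℝ)) (z : ℂ) : σ g z = z := by
  simp only [σ, hg, if_true]
  rfl

theorem slash_scal (p : ℕ) [hp : Fact (0 < p)] (k : ℤ) (f : ℍ → ℂ) (z : ℍ) :
    (f ∣[k] scal p) z = (p : ℂ) ^ (k - 2) * f z := by
  have hp1 : (p : ℂ) ≠ 0 := by exact_mod_cast hp.1.ne'
  rw [ModularForm.slash_apply, scal_smul]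
  have h1 : denom (scal p) z = p := by
    rw [scal, denom_scalar]; simp
  have h2 : ((scal p).det : ℝ) = (p : ℝ) ^ 2 := by
    have h0 := congrArg Units.val (congrArg Matrix.GeneralLinearGroup.det
      (GG_mul_adj (p := p) ⟨!![(p : ℤ), 0; 0, 1], by simp⟩))
    rw [map_mul, Units.val_mul, GG_det, GG_det] at h0
    rw [← h0, sq]
  have h3 : 0 < ((scal p).det : ℝ) := by
    rw [h2]; have := hp.1; positivity
  have h4 : σ (scal p) (f z) = f z := sigma_pos h3 _
  rw [h4, h1, h2, abs_of_nonneg (by positivity)]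
  push_cast
  rw [← zpow_natCast, ← zpow_mul, mul_assoc, ← zpow_add₀ hp1, mul_comm]
  congr 2
  push_cast
  ring

variable {p : ℕ} [hp : Fact (0 < p)] {k : ℤ} {f : ℍ → ℂ}

/-- the integrand -/
noncomputable def Ph (k : ℤ) (f : ℍ → ℂ) (A : MM p) (z : ℍ) : ℂ :=
  petersson k f (f ∣[k] GG A) z

theorem Ph_smul (hf : ∀ γ : SL(2, ℤ), f ∣[k] γ = f) (γ : SL(2, ℤ)) (A : MM p) :
    Ph k f (γ • A) = Ph k f A := by
  unfold Ph
  rw [GG_smul, SlashAction.slash_mul]
  have h : f ∣[k] (Matrix.SpecialLinearGroup.mapGL ℝ) γ = f := hf γ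
  rw [h]

theorem Ph_adj (A : MM p) (z : ℍ) :
    Ph k f A (GG (adjM A) • z) = conj (Ph k f (adjM A) z) := by
  have hp0 : (0 : ℝ) < p := by exact_mod_cast hp.1
  have hp1 : (p : ℂ) ≠ 0 := by exact_mod_cast hp.1.ne'
  have h1 := petersson_slash k f (f ∣[k] GG A) (GG (adjM A)) z
  rw [GG_det, abs_of_pos hp0, sigma_pos (by rw [GG_det]; exact hp0),
    ← SlashAction.slash_mul, GG_mul_adj] at h1
  have h2 : petersson k (f ∣[k] GG (adjM A)) (f ∣[k] scal p) z =
      (p : ℂ) ^ (k - 2) * petersson k (f ∣[k] GG (adjM A)) f z := by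
    unfold petersson
    rw [slash_scal]; ring
  rw [h2] at h1
  have h3 : petersson k (f ∣[k] GG (adjM A)) f z =
      petersson k f (f ∣[k] GG A) (GG (adjM A) • z) := by
    have h4 : (p : ℂ) ^ (k - 2) ≠ 0 := zpow_ne_zero _ hp1
    apply mul_left_cancel₀ h4
    rw [h1]
    push_cast
    rfl
  unfold Ph
  rw [← h3, petersson_symm]

theorem Ph_cont (hc : Continuous f) (A : MM p) : Continuous (Ph k f A) := by
  unfold Ph
  refine petersson_continuous k hc ?_
  rw [ModularForm.slash_def]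
  have hp0 : (0 : ℝ) < p := by exact_mod_cast hp.1
  have h1 : ∀ z, σ (GG A) (f (GG A • z)) = f (GG A • z) := fun z =>
    sigma_pos (by rw [GG_det]; exact hp0) _
  simp_rw [h1]
  refine Continuous.mul (Continuous.mul (hc.comp (continuous_const_smul _)) continuous_const) ?_
  refine Continuous.zpow₀ ?_ _ fun z => Or.inl (denom_ne_zero _ z)
  unfold denom
  fun_prop

theorem pet_norm_sq (k : ℤ) (f g : ℍ → ℂ) (z : ℍ) :
    ‖petersson k f g z‖ ^ 2 = ‖petersson k f f z‖ * ‖petersson k g g z‖ := by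
  unfold petersson
  simp only [norm_mul, Complex.norm_conj]
  ring

theorem Ph_bdd {C : ℝ} (hb : ∀ z, ‖petersson k f f z‖ ≤ C) (A : MM p) :
    ∃ C', ∀ z, ‖Ph k f A z‖ ≤ C' := by
  have hp0 : (0 : ℝ) < p := by exact_mod_cast hp.1
  have hC : 0 ≤ C := (norm_nonneg _).trans (hb I)
  refine ⟨√(C * ((p : ℝ) ^ (k - 2) * C)), fun z => ?_⟩
  apply Real.le_sqrt_of_sq_le
  unfold Ph
  rw [pet_norm_sq]
  refine mul_le_mul (hb z) ?_ (norm_nonneg _) hC
  rw [petersson_slash, GG_det, abs_of_pos hp0, norm_mul, norm_σ]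
  refine mul_le_mul ?_ (hb _) (norm_nonneg _) (by positivity)
  rw [norm_zpow]
  simp

end Pool.Agent.RealCoeff
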