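import Pool.Agent.Lib_helper28.REAL.F

/-!
# The sum over integer matrices of determinant `p` is real
-/

namespace Pool.Agent.RealCoeff

open UpperHalfPlane MeasureTheory ModularGroup Modular MatrixGroups Filter Topology
open scoped ModularForm ComplexConjugate

variable {p : ℕ} [hp : Fact (0 < p)] {k : ℤ} {f : ℍ → ℂ}

/-- the integral attached to a matrix -/
noncomputable def II (k : ℤ) (f : ℍ → ℂ) (A : MM p) : ℂ :=
  ∫ z : ℍ, ((P z * P (GG A • z) : ℝ) : ℂ) * Ph k f A z

theorem II_adj (A : MM p) : II k f (adjM A) = conj (II k f A) := by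
  unfold II
  rw [← integral_conj]
  rw [← integral_smul_eq_self (μ := (volume : Measure ℍ))
    (fun z => conj (((P z * P (GG A • z) : ℝ) : ℂ) * Ph k f A z)) (g := GG (adjM A))]
  refine integral_congr_ae (Eventually.of_forall fun z => ?_)
  simp only
  rw [GG_adj_smul, Ph_adj, map_mul, Complex.conj_ofReal, Complex.conj_conj]
  push_cast
  ring

theorem P_smul_meas (g : GL (Fin 2) ℝ) : Measurable fun z : ℍ => P (g • z) :=
  P_meas.comp (continuous_const_smul g).measurable

theorem GG_smul_smul (γ : SL(2, ℤ)) (A : MM p) (z : ℍ) :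
    GG (γ • A) • z = γ • (GG A • z) := by
  rw [GG_smul, mul_smul]
  rfl

theorem II_hasSum (hf : ∀ γ : SL(2, ℤ), f ∣[k] γ = f) (hc : Continuous f) {C : ℝ}
    (hb : ∀ z, ‖petersson k f f z‖ ≤ C) (A : MM p) :
    HasSum (fun γ : SL(2, ℤ) => II k f (γ • A)) (∫ z : ℍ, ((P z : ℝ) : ℂ) * Ph k f A z) := by
  obtain ⟨C', hC'⟩ := Ph_bdd hb A
  have hC0 : 0 ≤ C' := (norm_nonneg _).trans (hC' UpperHalfPlane.I)
  unfold II
  have hs : ∀ z : ℍ, HasSum (fun γ : SL(2, ℤ) => P (GG (γ • A) • z)) 1 := by
    intro z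
    simp_rw [GG_smul_smul]
    exact P_hasSum _
  refine hasSum_integral_of_dominated_convergence
    (bound := fun γ z => P z * P (GG (γ • A) • z) * C') (fun γ => ?_) (fun γ => ?_) ?_ ?_ ?_
  · refine AEStronglyMeasurable.mul ?_ ?_
    · exact (Complex.measurable_ofReal.comp (P_meas.mul (P_smul_meas _))).aestronglyMeasurable
    · rw [Ph_smul hf]
      exact (Ph_cont hc A).aestronglyMeasurable
  · refine Eventually.of_forall fun z => ?_
    rw [norm_mul, Complex.norm_real, Real.norm_of_nonneg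
      (mul_nonneg (P_nonneg _) (P_nonneg _)), Ph_smul hf]
    exact mul_le_mul_of_nonneg_left (hC' z) (mul_nonneg (P_nonneg _) (P_nonneg _))
  · refine Eventually.of_forall fun z => ?_
    exact (((hs z).mul_left (P z)).mul_right C').summable
  · have h1 : (fun z : ℍ => ∑' γ : SL(2, ℤ), P z * P (GG (γ • A) • z) * C') =
        fun z => P z * C' := by
      funext z
      rw [(((hs z).mul_left (P z)).mul_right C').tsum_eq, mul_one]
    rw [h1]
    exact P_int.mul_const C'
  · refine Eventually.of_forall fun z => ?_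
    have h2 := ((hs z).mul_left (P z))
    have h3 := (Complex.hasSum_ofReal.mpr h2).mul_right (Ph k f A z)
    rw [mul_one] at h3
    have h4 : (fun γ : SL(2, ℤ) => ((P z * P (GG (γ • A) • z) : ℝ) : ℂ) * Ph k f (γ • A) z) =
        fun γ => ((P z * P (GG (γ • A) • z) : ℝ) : ℂ) * Ph k f A z := by
      funext γ
      rw [Ph_smul hf]
    rw [h4]
    exact h3

end Pool.Agent.RealCoeff
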