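import Pool.Agent.Lib_helper28.REAL.E

/-!
# The Hecke relation in terms of matrices
-/

namespace Pool.Agent.RealCoeff

open UpperHalfPlane MeasureTheory ModularGroup Modular MatrixGroups Filter Topology
open scoped ModularForm ComplexConjugate

theorem hs_congr {F G : ℕ → ℂ} {s : ℂ} (h : ∀ n, F n = G n) (hF : HasSum F s) : HasSum G s := by
  have : F = G := funext h
  rwa [this] at hF

/-- `e(w) = exp(2 π i w)` -/
noncomputable def ee (w : ℂ) : ℂ := Complex.exp (2 * Real.pi * Complex.I * w)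

theorem ee_add (w w' : ℂ) : ee (w + w') = ee w * ee w' := by
  unfold ee; rw [mul_add, Complex.exp_add]

theorem ee_nat (n : ℕ) : ee n = 1 := by
  unfold ee
  rw [Complex.exp_eq_one_iff]
  exact ⟨n, by push_cast; ring⟩

theorem ee_mul_nat (n : ℕ) (w : ℂ) : ee (n * w) = ee w ^ n := by
  unfold ee
  rw [← Complex.exp_nat_mul]
  congr 1; ring

theorem ee_eq_one {n p : ℕ} (hp : 0 < p) (h : ee (n / p) = 1) : p ∣ n := by
  unfold ee at h
  rw [Complex.exp_eq_one_iff] at h
  obtain ⟨m, hm⟩ := h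
  have hpi : (2 * Real.pi * Complex.I : ℂ) ≠ 0 := Complex.two_pi_I_ne_zero
  have hpc : (p : ℂ) ≠ 0 := by exact_mod_cast hp.ne'
  have h1 : ((n : ℂ) / p) = m := by
    apply mul_left_cancel₀ hpi
    rw [hm]; ring
  rw [div_eq_iff hpc] at h1
  have h2 : (n : ℤ) = m * p := by exact_mod_cast h1
  have h3 : (p : ℤ) ∣ n := ⟨m, by rw [h2]; ring⟩
  exact_mod_cast h3

theorem sum_ee {n p : ℕ} (hp : 0 < p) :
    ∑ b : Fin p, ee ((n : ℂ) * b / p) = if p ∣ n then (p : ℂ) else 0 := by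
  have hpc : (p : ℂ) ≠ 0 := by exact_mod_cast hp.ne'
  have h1 : ∀ b : Fin p, ee ((n : ℂ) * b / p) = ee (n / p) ^ (b : ℕ) := by
    intro b
    rw [← ee_mul_nat]
    congr 1; ring
  simp_rw [h1]
  rw [Fin.sum_univ_eq_sum_range (fun b => ee ((n : ℂ) / p) ^ b) p]
  split_ifs with h
  · obtain ⟨m, rfl⟩ := h
    have h2 : (((p * m : ℕ) : ℂ) / p) = (m : ℂ) := by
      push_cast; field_simp
    rw [h2, ee_nat]
    simp
  · have h2 : ee ((n : ℂ) / p) ≠ 1 := fun h3 => h (ee_eq_one hp h3)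
    have h4 : ee ((n : ℂ) / p) ^ p = 1 := by
      rw [← ee_mul_nat]
      have : (p : ℂ) * (n / p) = n := by field_simp
      rw [this, ee_nat]
    have h5 := mul_geom_sum (ee ((n : ℂ) / p)) p
    rw [h4, sub_self] at h5
    rcases mul_eq_zero.mp h5 with h6 | h6
    · exact absurd (sub_eq_zero.mp h6) h2
    · exact h6

variable {k : ℕ} (f : CuspForm 𝒮ℒ (k : ℤ))

theorem f_hasSum (z : ℍ) :
    HasSum (fun n : ℕ => (qExpansion 1 f).coeff n * ee (n * z)) (f z) := by
  have h := ModularForm.hasSum_qExpansion (f := f) one_pos one_mem_strictPeriods_SL z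
  convert h using 3 with n
  rw [ee_mul_nat]
  unfold ee Function.Periodic.qParam
  simp

variable {p : ℕ} [hp : Fact (0 < p)]

theorem slash_none (z : ℍ) :
    (⇑f ∣[(k : ℤ)] GG (rep p none)) z = f (GG (rep p none) • z) * (p : ℂ) ^ ((k : ℤ) - 1) := by
  have hp0 : (0 : ℝ) < p := by exact_mod_cast hp.1
  rw [ModularForm.slash_apply, GG_det, abs_of_pos hp0, sigma_pos (by rw [GG_det]; exact hp0)]
  have h1 : denom (GG (rep p none)) z = 1 := by
    unfold denom
    rw [GG_coe]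
    simp [rep]
  rw [h1]
  simp

theorem coe_none (z : ℍ) : ((GG (rep p none) • z : ℍ) : ℂ) = p * z := by
  have hp0 : (0 : ℝ) < p := by exact_mod_cast hp.1
  rw [coe_smul_of_det_pos (by rw [GG_det]; exact hp0)]
  unfold num denom
  rw [GG_coe]
  simp [rep]

theorem slash_some (b : Fin p) (z : ℍ) :
    (⇑f ∣[(k : ℤ)] GG (rep p (some b))) z = f (GG (rep p (some b)) • z) * (p : ℂ)⁻¹ := by
  have hp0 : (0 : ℝ) < p := by exact_mod_cast hp.1
  have hp1 : (p : ℂ) ≠ 0 := by exact_mod_cast hp.1.ne'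
  rw [ModularForm.slash_apply, GG_det, abs_of_pos hp0, sigma_pos (by rw [GG_det]; exact hp0)]
  have h1 : denom (GG (rep p (some b))) z = p := by
    unfold denom
    rw [GG_coe]
    simp [rep]
  rw [h1, mul_assoc]
  push_cast
  rw [← zpow_add₀ hp1]
  congr 1
  rw [show (k : ℤ) - 1 + -(k : ℤ) = -1 by ring, zpow_neg_one]

theorem coe_some (b : Fin p) (z : ℍ) :
    ((GG (rep p (some b)) • z : ℍ) : ℂ) = (z + b) / p := by
  have hp0 : (0 : ℝ) < p := by exact_mod_cast hp.1
  rw [coe_smul_of_det_pos (by rw [GG_det]; exact hp0)]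
  unfold num denom
  rw [GG_coe]
  simp [rep]

theorem none_hasSum (hk : 0 < k) (z : ℍ) :
    HasSum (fun n : ℕ => (if p ∣ n then (p : ℂ) ^ (k - 1) * (qExpansion 1 f).coeff (n / p) else 0)
      * ee (n * z)) ((⇑f ∣[(k : ℤ)] GG (rep p none)) z) := by
  have hp1 : (p : ℂ) ≠ 0 := by exact_mod_cast hp.1.ne'
  have hi : Function.Injective (fun m : ℕ => p * m) := fun a b h =>
    Nat.eq_of_mul_eq_mul_left hp.1 h
  rw [← hi.hasSum_iff, slash_none]
  · have h := (f_hasSum f (GG (rep p none) • z)).mul_right ((p : ℂ) ^ ((k : ℤ) - 1))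
    refine hs_congr (fun m => ?_) h
    simp only [Function.comp_apply]
    rw [if_pos (Dvd.intro _ rfl), Nat.mul_div_cancel_left _ hp.1, coe_none]
    have h2 : ((k : ℤ) - 1) = ((k - 1 : ℕ) : ℤ) := by omega
    rw [h2, zpow_natCast]
    push_cast
    rw [show (p : ℂ) * m * z = m * (p * z) by ring]
    ring
  · intro n hn
    rw [if_neg, zero_mul]
    rintro ⟨m, rfl⟩
    exact hn ⟨m, rfl⟩

theorem some_hasSum (z : ℍ) :
    HasSum (fun n : ℕ => (qExpansion 1 f).coeff (p * n) * ee (n * z))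
      (∑ b : Fin p, (⇑f ∣[(k : ℤ)] GG (rep p (some b))) z) := by
  have hp1 : (p : ℂ) ≠ 0 := by exact_mod_cast hp.1.ne'
  have h1 : ∀ b : Fin p, HasSum (fun n : ℕ => (qExpansion 1 f).coeff n * ee (n * z / p) *
      (ee ((n : ℂ) * b / p) * (p : ℂ)⁻¹)) ((⇑f ∣[(k : ℤ)] GG (rep p (some b))) z) := by
    intro b
    rw [slash_some]
    have h := (f_hasSum f (GG (rep p (some b)) • z)).mul_right ((p : ℂ)⁻¹)
    refine hs_congr (fun n => ?_) h
    rw [coe_some, show (n : ℂ) * ((z + b) / p) = n * z / p + n * b / p by ring, ee_add]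
    ring
  have h2 := hasSum_sum (s := Finset.univ) fun b _ => h1 b
  have hi : Function.Injective (fun m : ℕ => p * m) := fun a b h =>
    Nat.eq_of_mul_eq_mul_left hp.1 h
  rw [← hi.hasSum_iff] at h2
  · refine hs_congr (fun m => ?_) h2
    simp only [Function.comp_apply]
    rw [← Finset.mul_sum, ← Finset.sum_mul, sum_ee hp.1, if_pos (Dvd.intro _ rfl),
      mul_inv_cancel₀ hp1, mul_one]
    congr 2
    push_cast
    field_simp
  · intro n hn
    rw [← Finset.mul_sum, ← Finset.sum_mul, sum_ee hp.1, if_neg]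
    · simp
    · rintro ⟨m, rfl⟩
      exact hn ⟨m, rfl⟩

theorem hecke_slash (hk : 0 < k) (c : ℂ)
    (h : ∀ n : ℕ, (qExpansion 1 f).coeff (p * n) +
      (if p ∣ n then (p : ℂ) ^ (k - 1) * (qExpansion 1 f).coeff (n / p) else 0) =
      c * (qExpansion 1 f).coeff n) (z : ℍ) :
    ∑ r : Option (Fin p), (⇑f ∣[(k : ℤ)] GG (rep p r)) z = c * f z := by
  rw [Fintype.sum_option]
  have h1 := (none_hasSum f (p := p) hk z).add (some_hasSum f (p := p) z)
  have h2 := (f_hasSum f z).mul_left c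
  refine h1.unique ?_
  refine hs_congr (fun n => ?_) h2
  rw [← add_mul, ← mul_assoc, ← h n, add_comm]

end Pool.Agent.RealCoeff
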