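import Pool.Agent.Lib_helper28.REAL.W

/-!
# The fundamental domain has finite volume; positivity
-/

namespace Pool.Agent.RealCoeff

open UpperHalfPlane MeasureTheory ModularGroup Modular MatrixGroups Filter Topology

/-- auxiliary product function -/
noncomputable def stripG (p : ℝ × ℝ) : ENNReal :=
  (Set.Icc (-1 / 2 : ℝ) (1 / 2)).indicator (fun _ => (1 : ENNReal)) p.1 *
        (Set.Ici (1 / 2 : ℝ)).indicator (fun y => ENNReal.ofReal ((1 / y) ^ 2)) p.2

theorem stripG_meas : Measurable stripG := by
  unfold stripG
  apply Measurable.mul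
  · exact (measurable_const.indicator measurableSet_Icc).comp measurable_fst
  · refine Measurable.comp (Measurable.indicator ?_ measurableSet_Ici) measurable_snd
    fun_prop

theorem lint_strip : ∫⁻ z : ℂ in {z : ℂ | |z.re| ≤ 1 / 2 ∧ 1 / 2 ≤ z.im},
    ENNReal.ofReal ((1 / z.im) ^ 2) < ⊤ := by
  have hs : MeasurableSet {z : ℂ | |z.re| ≤ 1 / 2 ∧ 1 / 2 ≤ z.im} := by
    apply MeasurableSet.inter
    · exact measurableSet_le (Complex.measurable_re.abs) measurable_const
    · exact measurableSet_le measurable_const Complex.measurable_im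
  rw [← lintegral_indicator hs]
  have h1 : ∀ z : ℂ, ({z : ℂ | |z.re| ≤ 1 / 2 ∧ 1 / 2 ≤ z.im}).indicator
      (fun z => ENNReal.ofReal ((1 / z.im) ^ 2)) z =
      stripG (Complex.measurableEquivRealProd z) := by
    intro z
    simp only [stripG, Complex.measurableEquivRealProd_apply]
    by_cases h : |z.re| ≤ 1 / 2 ∧ 1 / 2 ≤ z.im
    · have hm : z ∈ {z : ℂ | |z.re| ≤ 1 / 2 ∧ 1 / 2 ≤ z.im} := h
      rw [Set.indicator_of_mem hm, Set.indicator_of_mem, Set.indicator_of_mem, one_mul]
      · exact h.2
      · rw [abs_le] at h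
        constructor <;> linarith [h.1.1, h.1.2]
    · have hm : z ∉ {z : ℂ | |z.re| ≤ 1 / 2 ∧ 1 / 2 ≤ z.im} := h
      rw [Set.indicator_of_notMem hm]
      rw [not_and_or] at h
      rcases h with h | h
      · rw [Set.indicator_of_notMem, zero_mul]
        intro h2
        apply h
        rw [abs_le]
        constructor <;> linarith [h2.1, h2.2]
      · rw [Set.indicator_of_notMem (s := Set.Ici (1 / 2 : ℝ)), mul_zero]
        exact h
  rw [lintegral_congr h1]
  rw [Complex.volume_preserving_equiv_real_prod.lintegral_comp stripG_meas]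
  · unfold stripG
    rw [Measure.volume_eq_prod, lintegral_prod_mul]
    · apply ENNReal.mul_lt_top
      · rw [lintegral_indicator measurableSet_Icc]
        simp
      · rw [lintegral_indicator measurableSet_Ici]
        have h2 : IntegrableOn (fun y : ℝ => (1 / y) ^ 2) (Set.Ici (1 / 2)) := by
          rw [integrableOn_Ici_iff_integrableOn_Ioi]
          refine (integrableOn_Ioi_rpow_of_lt (a := -2) (by norm_num) (c := 1 / 2)
            (by norm_num)).congr_fun (fun y hy => ?_) measurableSet_Ioi
          have hy' : (0 : ℝ) < y := lt_trans (by norm_num) hy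
          simp only
          rw [Real.rpow_neg hy'.le, one_div, inv_pow]
          norm_num
        have h3 := h2.2
        unfold HasFiniteIntegral at h3
        refine lt_of_le_of_lt (lintegral_mono fun y => ?_) h3
        rw [← ofReal_norm]
        exact ENNReal.ofReal_le_ofReal (le_abs_self _)
    · exact (measurable_const.indicator measurableSet_Icc).aemeasurable
    · refine (Measurable.indicator ?_ measurableSet_Ici).aemeasurable
      fun_prop

theorem vol_fd : (volume : Measure ℍ) 𝒟 < ⊤ := by
  rw [volume_eq_lintegral]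
  refine lt_of_le_of_lt (le_trans (lintegral_mono_set (μ := volume)
    (t := {z : ℂ | |z.re| ≤ 1 / 2 ∧ 1 / 2 ≤ z.im}) ?_) (le_of_eq ?_)) lint_strip
  · rintro _ ⟨z, hz, rfl⟩
    have h1 := three_le_four_mul_im_sq_of_mem_fd hz
    have h2 := hz.2
    refine ⟨h2, ?_⟩
    have h3 := z.im_pos
    show 1 / 2 ≤ z.im
    nlinarith
  · refine setLIntegral_congr_fun ?_ fun z _ => ?_
    · apply MeasurableSet.inter
      · exact measurableSet_le (Complex.measurable_re.abs) measurable_const
      · exact measurableSet_le measurable_const Complex.measurable_im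
    · rw [ENNReal.ofReal, ← sq_abs, abs_div, abs_one]
      congr 1
      ext
      simp [sq_nonneg]

theorem P_int : Integrable P := by
  refine ⟨P_meas.aestronglyMeasurable, ?_⟩
  unfold HasFiniteIntegral
  refine lt_of_le_of_lt (b := ∫⁻ z : ℍ, rlU z) (lintegral_mono fun z => ?_) ?_
  · rw [← ofReal_norm, Real.norm_of_nonneg (P_nonneg z)]
    refine le_trans ENNReal.ofReal_toReal_le (rlPsi_le z)
  · unfold rlU
    rw [lintegral_indicator isClosed_fd.measurableSet]
    simpa using vol_fd

/-- a nonempty open set of the upper half plane has positive measure -/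
theorem vol_open_pos {U : Set ℍ} (hU : IsOpen U) (hne : U.Nonempty) : (volume : Measure ℍ) U ≠ 0 := by
  intro h
  rw [volume_eq_lintegral] at h
  have ho : IsOpen (UpperHalfPlane.coe '' U) := isOpenEmbedding_coe.isOpenMap U hU
  rw [lintegral_eq_zero_iff] at h
  · have h1 : ∀ᵐ z : ℂ ∂volume.restrict (UpperHalfPlane.coe '' U), False := by
      have h2 : ∀ᵐ z : ℂ ∂volume.restrict (UpperHalfPlane.coe '' U),
          z ∈ UpperHalfPlane.coe '' U := ae_restrict_mem ho.measurableSet
      filter_upwards [h, h2] with z hz hz2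
      obtain ⟨w, hw, rfl⟩ := hz2
      have h3 := w.im_pos
      have h4 : ‖w.im‖₊ ≠ 0 := by simpa using h3.ne'
      have h5 : ((1 / ‖(w : ℂ).im‖₊) ^ 2 : NNReal) ≠ 0 := by
        have : (w : ℂ).im = w.im := rfl
        rw [this]
        positivity
      apply h5
      have h6 : (((1 / ‖(w : ℂ).im‖₊) ^ 2 : NNReal) : ENNReal) = 0 := hz
      exact_mod_cast h6
    simp only [ae_iff, not_false_eq_true, Set.ofPred_true, Measure.restrict_apply_univ] at h1
    exact (ho.measure_pos volume (hne.image _)).ne' h1
  · fun_prop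

end Pool.Agent.RealCoeff
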