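import Mathlib

/-!
# An `SL(2, ℤ)` partition of unity on the upper half plane
-/

namespace Pool.Agent.RealCoeff

open UpperHalfPlane MeasureTheory ModularGroup Modular MatrixGroups Filter Topology

/-- indicator of the closed fundamental domain -/
noncomputable def rlU (z : ℍ) : ENNReal := (𝒟 : Set ℍ).indicator 1 z

/-- number of `γ` with `γ z` in the fundamental domain -/
noncomputable def rlN (z : ℍ) : ENNReal := ∑' γ : SL(2, ℤ), rlU (γ • z)

/-- the weight -/
noncomputable def rlPsi (z : ℍ) : ENNReal := rlU z / rlN z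

theorem rlU_meas : Measurable rlU :=
  measurable_one.indicator isClosed_fd.measurableSet

theorem sl_smul_cont (γ : SL(2, ℤ)) : Continuous (fun z : ℍ => γ • z) := by
  exact continuous_const_smul (Matrix.SpecialLinearGroup.mapGL ℝ γ)

instance sl_countable : Countable SL(2, ℤ) := by
  have : Countable (Matrix (Fin 2) (Fin 2) ℤ) := inferInstanceAs (Countable (Fin 2 → Fin 2 → ℤ))
  exact Subtype.countable

theorem rlN_meas : Measurable rlN := by
  unfold rlN
  refine Measurable.tsum fun γ => ?_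
  exact rlU_meas.comp (sl_smul_cont γ).measurable

theorem rlN_inv (g : SL(2, ℤ)) (z : ℍ) : rlN (g • z) = rlN z := by
  unfold rlN
  have : ∀ γ : SL(2, ℤ), rlU (γ • g • z) = rlU ((γ * g) • z) := fun γ => by rw [mul_smul]
  simp_rw [this]
  exact (Equiv.mulRight g).tsum_eq (fun γ => rlU (γ • z))

theorem rlN_ge (z : ℍ) : 1 ≤ rlN z := by
  obtain ⟨g, hg⟩ := exists_smul_mem_fd z
  calc (1 : ENNReal) = rlU (g • z) := by rw [rlU, Set.indicator_of_mem hg]; rfl
    _ ≤ rlN z := ENNReal.le_tsum (f := fun γ : SL(2, ℤ) => rlU (γ • z)) g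

theorem finite_fd (z : ℍ) : {γ : SL(2, ℤ) | γ • z ∈ 𝒟}.Finite := by
  obtain ⟨g, hg⟩ := exists_max_im z
  have h := ProperlyDiscontinuousSMul.finite_disjoint_inter_image (Γ := 𝒮ℒ) (T := ℍ)
    (isCompact_singleton (x := z)) (isCompact_truncatedFundamentalDomain (g • z).im)
  let φ : SL(2, ℤ) → 𝒮ℒ := fun γ => ⟨Matrix.SpecialLinearGroup.mapGL ℝ γ, ⟨γ, rfl⟩⟩
  have hφ : Function.Injective φ := by
    intro a b hab
    have := congrArg Subtype.val hab
    exact Matrix.SpecialLinearGroup.mapGL_injective this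
  refine (h.preimage (f := φ) hφ.injOn).subset fun γ hγ => ?_
  refine ⟨γ • z, ⟨z, rfl, rfl⟩, hγ, hg γ⟩

theorem rlN_lt_top (z : ℍ) : rlN z < ⊤ := by
  have hf := finite_fd z
  unfold rlN
  rw [tsum_eq_sum (s := hf.toFinset)]
  · refine ENNReal.sum_lt_top.mpr fun γ _ => ?_
    unfold rlU
    exact lt_of_le_of_lt (Set.indicator_le_self' (fun _ _ => zero_le) _) (by simp)
  · intro γ hγ
    simp only [Set.Finite.mem_toFinset, Set.mem_ofPred_eq] at hγ
    rw [rlU, Set.indicator_of_notMem hγ]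

theorem rlPsi_meas : Measurable rlPsi := rlU_meas.div rlN_meas

theorem rlPsi_tsum (z : ℍ) : ∑' γ : SL(2, ℤ), rlPsi (γ • z) = 1 := by
  unfold rlPsi
  simp_rw [rlN_inv, div_eq_mul_inv]
  rw [ENNReal.tsum_mul_right]
  exact ENNReal.mul_inv_cancel (ne_of_gt (lt_of_lt_of_le one_pos (rlN_ge z)))
    (rlN_lt_top z).ne

theorem rlPsi_le (z : ℍ) : rlPsi z ≤ rlU z := by
  unfold rlPsi
  exact ENNReal.div_le_of_le_mul (le_mul_of_one_le_right' (rlN_ge z))

theorem rlPsi_le_one (z : ℍ) : rlPsi z ≤ 1 := by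
  calc rlPsi z ≤ ∑' γ : SL(2, ℤ), rlPsi (γ • z) := by
        have := ENNReal.le_tsum (f := fun γ : SL(2, ℤ) => rlPsi (γ • z)) 1
        simpa using this
    _ = 1 := rlPsi_tsum z

/-- real valued weight -/
noncomputable def P (z : ℍ) : ℝ := (rlPsi z).toReal

theorem P_meas : Measurable P := rlPsi_meas.ennreal_toReal

theorem P_nonneg (z : ℍ) : 0 ≤ P z := ENNReal.toReal_nonneg

theorem P_le_one (z : ℍ) : P z ≤ 1 := by
  unfold P
  exact ENNReal.toReal_le_of_le_ofReal zero_le_one (by simpa using rlPsi_le_one z)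

theorem P_hasSum (z : ℍ) : HasSum (fun γ : SL(2, ℤ) => P (γ • z)) 1 := by
  have h := rlPsi_tsum z
  have h1 : ∑' γ : SL(2, ℤ), rlPsi (γ • z) ≠ ⊤ := by rw [h]; simp
  have h2 := ENNReal.hasSum_toReal h1
  unfold P
  have h3 : ∑' γ : SL(2, ℤ), (rlPsi (γ • z)).toReal = 1 := by
    rw [← ENNReal.tsum_toReal_eq (fun γ => ENNReal.ne_top_of_tsum_ne_top h1 γ), h]; simp
  rwa [h3] at h2

end Pool.Agent.RealCoeff
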